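import Pool.Agent.H77.BD.Targets

/-!
# Board bct_modules, row GEN: generation by the simple root elements
-/

set_option autoImplicit false

open Set Matrix Pool.Agent.H77.BC Pool.Agent.H77.BD

namespace Pool.Agent.H16.BCT

section

variable {l : ℕ} {C : Matrix (Fin l) (Fin l) ℤ} {F Γ : Type} [Field F] [Group Γ]
  {x : Root C → F → Γ} {τ : (Fin l → Fˣ) →* Γ}

/-- a root element of a sum of two roots -/
theorem gen_step (h : CD x τ) (K : Subgroup Γ) (γ α β : Root C) (hs : β.1 = γ.1 + α.1)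
    (hγ : ∀ t, x γ t ∈ K) (hα : ∀ t, x α t ∈ K) (t : F) : x β t ∈ K := by
  have h1 := h.com γ α β hs 1 ((eps C γ.1 α.1 : F) * t)
  have h2 : (eps C γ.1 α.1 : F) * 1 * ((eps C γ.1 α.1 : F) * t) = t := by
    rw [mul_one, ← mul_assoc, eps_mul_self_F, one_mul]
  rw [h2] at h1
  have h3 : x β t = x γ 1 * x α ((eps C γ.1 α.1 : F) * t) *
      (x α ((eps C γ.1 α.1 : F) * t) * x γ 1)⁻¹ := by
    rw [h1, mul_inv_cancel_right]
  rw [h3]
  exact K.mul_mem (K.mul_mem (hγ _) (hα _)) (K.inv_mem (K.mul_mem (hα _) (hγ _)))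

theorem gen_pos (hPOS : T_POS) (hC : Cartan C) (h : CD x τ) (K : Subgroup Γ)
    (hK : ∀ (i : Fin l) (t : F), x (sr hC i) t ∈ K ∧ x (ng (sr hC i)) t ∈ K) (n : ℕ) :
    ∀ β : Root C, IsPos β → (∑ i, β.1 i).toNat = n → ∀ t, x β t ∈ K ∧ x (ng β) t ∈ K := by
  induction n using Nat.strong_induction_on with
  | _ n ih =>
    intro β hβ hn t
    by_cases hsi : ∃ i, β.1 = si i
    · obtain ⟨i, hi⟩ := hsi
      have : β = sr hC i := Subtype.ext hi
      rw [this]
      exact hK i t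
    · push Not at hsi
      obtain ⟨i, γ, h1, h2, h3⟩ := (hPOS hC).2 β hβ hsi
      have hsum : ∑ j, γ.1 j = ∑ j, β.1 j - 1 := by
        rw [h2]
        simp [si, Finset.sum_sub_distrib]
      have hγ0 : 0 ≤ ∑ j, γ.1 j := Finset.sum_nonneg fun j _ => h3 j
      have hlt : (∑ j, γ.1 j).toNat < n := by omega
      have h4 := ih _ hlt γ h3 rfl
      have e1 : β.1 = γ.1 + (sr hC i).1 := by
        rw [h2, sr_val, sub_add_cancel]
      have e2 : (ng β).1 = (ng γ).1 + (ng (sr hC i)).1 := by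
        rw [ng_val, ng_val, ng_val, e1, neg_add]
      exact ⟨gen_step h K γ (sr hC i) β e1 (fun s => (h4 s).1) (fun s => (hK i s).1) t,
        gen_step h K (ng γ) (ng (sr hC i)) (ng β) e2 (fun s => (h4 s).2)
          (fun s => (hK i s).2) t⟩

end

theorem pf_GEN (hPOS : T_POS) : T_GEN := by
  intro l C hC F Γ _ _ x τ h
  rw [eq_top_iff, ← h.gen, Subgroup.closure_le]
  rintro g ⟨β, t, rfl⟩
  have hK : ∀ (i : Fin l) (t : F),
      x (sr hC i) t ∈ Subgroup.closure
        {g | ∃ (i : Fin l) (t : F), g = x (sr hC i) t ∨ g = x (ng (sr hC i)) t} ∧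
      x (ng (sr hC i)) t ∈ Subgroup.closure
        {g | ∃ (i : Fin l) (t : F), g = x (sr hC i) t ∨ g = x (ng (sr hC i)) t} :=
    fun i t => ⟨Subgroup.subset_closure ⟨i, t, Or.inl rfl⟩,
      Subgroup.subset_closure ⟨i, t, Or.inr rfl⟩⟩
  rcases (hPOS hC).1 β with hβ | hβ
  · exact (gen_pos hPOS hC h _ hK _ β hβ rfl t).1
  · have hn : IsPos (ng β) := fun i => by
      rw [ng_val, Pi.neg_apply]
      have := hβ i
      omega
    have h1 := (gen_pos hPOS hC h _ hK _ (ng β) hn rfl t).2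
    have h2 : ng (ng β) = β := Subtype.ext (neg_neg β.1)
    rw [h2] at h1
    exact h1

end Pool.Agent.H16.BCT
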