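import Pool.Agent.H77.BD.Targets

/-!
# Board bct_modules, row NBR: roots with product `-1`
-/

set_option autoImplicit false

open Set Matrix Pool.Agent.H77.BC Pool.Agent.H77.BD

namespace Pool.Agent.H16.BCT

/-- every vertex has a neighbour -/
theorem exists_nb {l : ℕ} {C : Matrix (Fin l) (Fin l) ℤ} (hC : Cartan C) (hl : 2 ≤ l)
    (i : Fin l) : ∃ j, j ≠ i ∧ C i j = -1 := by
  have hne : ({i}ᶜ : Set (Fin l)).Nonempty := by
    have : ∃ j : Fin l, j ≠ i := by
      by_cases h : i.val = 0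
      · exact ⟨⟨1, by omega⟩, fun hc => by rw [← hc] at h; simp at h⟩
      · exact ⟨⟨0, by omega⟩, fun hc => by rw [← hc] at h; simp at h⟩
    obtain ⟨j, hj⟩ := this
    exact ⟨j, hj⟩
  obtain ⟨a, ha, b, hb, hab⟩ := hC.conn {i} (Set.singleton_nonempty i) hne
  rw [Set.mem_singleton_iff] at ha
  subst ha
  have hba : b ≠ a := fun h => hb (by rw [h]; exact Set.mem_singleton a)
  exact ⟨b, hba, (hC.off a b hba.symm).resolve_left hab⟩

theorem pf_NBR : T_NBR := by
  intro l C hC hl α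
  have h1 : ip C α.1 α.1 = ∑ j, α.1 j * ip C α.1 (si j) := ip_eq_sum_right _ _
  rw [α.2] at h1
  obtain ⟨i, hi⟩ : ∃ i, ip C α.1 (si i) ≠ 0 := by
    by_contra hcon
    push Not at hcon
    have : ∑ j, α.1 j * ip C α.1 (si j) = 0 :=
      Finset.sum_eq_zero fun j _ => by rw [hcon j, mul_zero]
    omega
  have h2 := ip_le_two hC α (sr hC i)
  have h3 := neg_two_le_ip hC α (sr hC i)
  rw [sr_val] at h2 h3
  have h4 : ip C α.1 (si i) = -1 ∨ ip C α.1 (si i) = 1 ∨ ip C α.1 (si i) = 2 ∨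
      ip C α.1 (si i) = -2 := by omega
  obtain ⟨j, hj, hC1⟩ := exists_nb hC hl i
  rcases h4 with h | h | h | h
  · exact ⟨sr hC i, h⟩
  · refine ⟨ng (sr hC i), ?_⟩
    rw [ng_val, sr_val, ip_neg_right, h]
  · have he := ip_eq_two hC α (sr hC i) h
    refine ⟨sr hC j, ?_⟩
    rw [he, sr_val, sr_val, ip_si_si, hC1]
  · have he := ip_eq_neg_two hC α (sr hC i) h
    rw [sr_val] at he
    refine ⟨ng (sr hC j), ?_⟩
    have he' : α.1 = -si i := by rw [he, neg_neg]
    rw [he', ng_val, sr_val, ip_neg_right, ip_neg_left, neg_neg, ip_si_si, hC1]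

end Pool.Agent.H16.BCT
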