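import Pool.Agent.H77.BD.Targets

/-!
# Board bct_modules, row POS: positive and negative roots
-/

set_option autoImplicit false

open Set Matrix Pool.Agent.H77.BC Pool.Agent.H77.BD

namespace Pool.Agent.H16.BCT

theorem ip_self_ge {l : ℕ} {C : Matrix (Fin l) (Fin l) ℤ} (hC : Cartan C) (v : Fin l → ℤ)
    (hv : v ≠ 0) : 2 ≤ ip C v v := by
  have h1 := hC.pos v hv
  have h2 := ar_comm hC v v
  omega

theorem pos_or_neg {l : ℕ} {C : Matrix (Fin l) (Fin l) ℤ} (hC : Cartan C) (β : Root C) :
    IsPos β ∨ IsNeg β := by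
  obtain ⟨a, ha⟩ : ∃ a : Fin l → ℤ, ∀ i, a i = max (β.1 i) 0 := ⟨_, fun _ => rfl⟩
  obtain ⟨b, hb⟩ : ∃ b : Fin l → ℤ, ∀ i, b i = max (-β.1 i) 0 := ⟨_, fun _ => rfl⟩
  have hab : β.1 = a - b := by
    funext i
    rw [Pi.sub_apply, ha, hb]
    omega
  have hle : ip C a b ≤ 0 := by
    rw [ip_eq_sum]
    refine Finset.sum_nonpos fun i _ => Finset.sum_nonpos fun j _ => ?_
    have hai : 0 ≤ a i := by rw [ha]; exact le_max_right _ _
    have hbj : 0 ≤ b j := by rw [hb]; exact le_max_right _ _
    by_cases hij : i = j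
    · subst hij
      have h0 : a i = 0 ∨ b i = 0 := by
        rw [ha, hb]
        omega
      rcases h0 with h | h
      · rw [h]; simp
      · rw [h]; simp
    · rcases hC.off i j hij with h | h
      · rw [h]; simp
      · rw [h]
        have := mul_nonneg hai hbj
        linarith
  have h2 : ip C a a + ip C b b - 2 * ip C a b = 2 := by
    have h := β.2
    rw [hab, ip_sub_left, ip_sub_right, ip_sub_right, ip_comm hC b a] at h
    linarith
  by_cases ha0 : a = 0
  · right
    intro i
    have h := ha i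
    rw [ha0, Pi.zero_apply] at h
    exact max_eq_right_iff.mp h.symm
  · by_cases hb0 : b = 0
    · left
      intro i
      have h := hb i
      rw [hb0, Pi.zero_apply] at h
      have := max_eq_right_iff.mp h.symm
      linarith
    · exfalso
      have k1 := ip_self_ge hC a ha0
      have k2 := ip_self_ge hC b hb0
      linarith

theorem pf_POS : T_POS := by
  intro l C hC
  refine ⟨pos_or_neg hC, ?_⟩
  intro β hβ hns
  have h1 : ip C β.1 β.1 = ∑ j, β.1 j * ip C β.1 (si j) := ip_eq_sum_right _ _
  rw [β.2] at h1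
  obtain ⟨j, hj⟩ : ∃ j, 0 < β.1 j * ip C β.1 (si j) := by
    by_contra hcon
    push Not at hcon
    have := Finset.sum_nonpos fun j (_ : j ∈ Finset.univ) => hcon j
    linarith
  have hbj : 0 < β.1 j := by
    rcases lt_or_eq_of_le (hβ j) with h | h
    · exact h
    · rw [← h, zero_mul] at hj
      exact absurd hj (lt_irrefl _)
  have hij : 0 < ip C β.1 (si j) := (mul_pos_iff_of_pos_left hbj).mp hj
  have hle : ip C β.1 (si j) ≤ 1 := by
    have := ip_le_one hC β (sr hC j) (fun h => hns j (congrArg Subtype.val h))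
    rwa [sr_val] at this
  have he : ip C β.1 (si j) = 1 := by omega
  refine ⟨j, sb hC β (sr hC j) (by rw [sr_val]; exact he), he, rfl, ?_⟩
  intro i
  rw [sb_val, sr_val, Pi.sub_apply]
  by_cases hi : i = j
  · subst hi
    have : (si i : Fin l → ℤ) i = 1 := by simp [si]
    rw [this]
    omega
  · have : (si j : Fin l → ℤ) i = 0 := by simp [si, hi]
    rw [this]
    have := hβ i
    omega

end Pool.Agent.H16.BCT
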