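import Pool.Agent.H16.BCT.NBR

/-!
# Board bct_modules, row RCH: chains of roots
-/

set_option autoImplicit false

open Set Matrix Pool.Agent.H77.BC Pool.Agent.H77.BD

namespace Pool.Agent.H16.BCT

section

variable {l : ℕ} {C : Matrix (Fin l) (Fin l) ℤ}

/-- the relation of the chains -/
def ch1 (C : Matrix (Fin l) (Fin l) ℤ) (a b : Root C) : Prop := ip C a.1 b.1 = 1

theorem ch_one {a b : Root C} (h : ip C a.1 b.1 = 1) : Relation.ReflTransGen (ch1 C) a b :=
  Relation.ReflTransGen.single h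

theorem ch_symm (hC : Cartan C) {a b : Root C} (h : Relation.ReflTransGen (ch1 C) a b) :
    Relation.ReflTransGen (ch1 C) b a := by
  induction h with
  | refl => exact Relation.ReflTransGen.refl
  | tail _ h ih =>
    refine (ch_one ?_).trans ih
    rw [ip_comm hC]
    exact h

theorem ch_edge (hC : Cartan C) {i j : Fin l} (h : C i j = -1) :
    Relation.ReflTransGen (ch1 C) (sr hC i) (sr hC j) ∧
      Relation.ReflTransGen (ch1 C) (sr hC i) (ng (sr hC j)) := by
  have h0 : ip C (sr hC i).1 (sr hC j).1 = -1 := by rw [sr_val, sr_val, ip_si_si, h]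
  constructor
  · have h1 : ip C (sr hC i).1 (ad hC (sr hC i) (sr hC j) h0).1 = 1 := by
      rw [ad_val, ip_add_right, h0, ip_self]
      norm_num
    have h2 : ip C (ad hC (sr hC i) (sr hC j) h0).1 (sr hC j).1 = 1 := by
      rw [ad_val, ip_add_left, h0, ip_self]
      norm_num
    exact (ch_one h1).trans (ch_one h2)
  · refine ch_one ?_
    rw [ng_val, ip_neg_right, h0, neg_neg]

theorem ch_ng {a b : Root C} (h : Relation.ReflTransGen (ch1 C) a b) :
    Relation.ReflTransGen (ch1 C) (ng a) (ng b) := by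
  induction h with
  | refl => exact Relation.ReflTransGen.refl
  | tail _ h ih =>
    refine ih.trans (ch_one ?_)
    rw [ng_val, ng_val, ip_neg_left, ip_neg_right, neg_neg]
    exact h

theorem ch_simple (hC : Cartan C) (i j : Fin l) :
    Relation.ReflTransGen (ch1 C) (sr hC i) (sr hC j) := by
  obtain ⟨s, hs⟩ : ∃ s : Set (Fin l),
      ∀ j, j ∈ s ↔ Relation.ReflTransGen (ch1 C) (sr hC i) (sr hC j) :=
    ⟨{j | Relation.ReflTransGen (ch1 C) (sr hC i) (sr hC j)}, fun j => Iff.rfl⟩
  by_contra hj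
  rw [← hs] at hj
  have hi : i ∈ s := by
    rw [hs]
  obtain ⟨a, ha, b, hb, hab⟩ := hC.conn s ⟨i, hi⟩ ⟨j, hj⟩
  have hne : a ≠ b := fun h => hb (by rw [← h]; exact ha)
  have h1 := (hC.off a b hne).resolve_left hab
  rw [hs] at ha
  apply hb
  rw [hs]
  exact ha.trans (ch_edge hC h1).1

theorem ch_simple_ng (hC : Cartan C) (hl : 2 ≤ l) (i j : Fin l) :
    Relation.ReflTransGen (ch1 C) (sr hC i) (ng (sr hC j)) := by
  obtain ⟨k, _, hk⟩ := exists_nb hC hl i
  exact (ch_edge hC hk).2.trans (ch_ng (ch_simple hC k j))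

theorem ch_pos (hPOS : T_POS) (hC : Cartan C) (β : Root C) (hβ : IsPos β) :
    ∃ i, Relation.ReflTransGen (ch1 C) β (sr hC i) := by
  by_cases h : ∃ i, β.1 = si i
  · obtain ⟨i, hi⟩ := h
    refine ⟨i, ?_⟩
    have : β = sr hC i := Subtype.ext hi
    rw [this]
  · push Not at h
    obtain ⟨i, γ, h1, _, _⟩ := (hPOS hC).2 β hβ h
    exact ⟨i, ch_one h1⟩

end

theorem pf_RCH (hPOS : T_POS) : T_RCH := by
  intro l C hC hl α β
  have hl0 : 0 < l := by omega
  have key : ∀ β : Root C, Relation.ReflTransGen (ch1 C) β (sr hC ⟨0, hl0⟩) := by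
    intro β
    rcases (hPOS hC).1 β with h | h
    · obtain ⟨i, hi⟩ := ch_pos hPOS hC β h
      exact hi.trans (ch_simple hC i _)
    · have hn : IsPos (ng β) := fun i => by
        rw [ng_val, Pi.neg_apply]
        have := h i
        omega
      obtain ⟨i, hi⟩ := ch_pos hPOS hC (ng β) hn
      have h1 := ch_ng hi
      have h2 : ng (ng β) = β := Subtype.ext (neg_neg β.1)
      rw [h2] at h1
      exact h1.trans (ch_symm hC (ch_simple_ng hC hl _ i))
  exact (key α).trans (ch_symm hC (key β))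

end Pool.Agent.H16.BCT
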